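import Mathlib

/-!
Greedy halving: a certificate-supplied two-prover protocol cannot tell few zeros from few ones.
-/

namespace Pool.Agent.H.MP_7934a7_lc

open Finset

/-- A world at one length: every witness string `w` certifies at most one pair
(position, value). Valid: every position is certified by exactly one witness. -/
def OneValid {U W : Type*} (G : W → Option (U × Bool)) : Prop :=
  ∀ u : U, ∃! w : W, ∃ b : Bool, G w = some (u, b)

/-- positions whose certified value is `b` -/
noncomputable def valSet {U W : Type*} [Fintype U] (G : W → Option (U × Bool)) (b : Bool) :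
    Finset U := by
  classical
  exact univ.filter (fun u => ∃ w, G w = some (u, b))

/-- Completion: a finite piece of a valid world extends to a valid world in which all other
positions have value `β`. -/
lemma exists_completion {U W : Type*} [Fintype U] [Fintype W] [DecidableEq W]
    (G₀ : W → Option (U × Bool)) (h₀ : OneValid G₀) (c : Finset W) (β : Bool)
    (hcard : c.card + Fintype.card U ≤ Fintype.card W) :
    ∃ G : W → Option (U × Bool), OneValid G ∧ (∀ w ∈ c, G w = G₀ w) ∧
      (valSet G (!β)).card ≤ c.card := by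
  classical
  -- positions not touched by `c`
  let T : Set U := {u | ∃ w ∈ c, ∃ b, G₀ w = some (u, b)}
  have hc' : Fintype.card {u : U // u ∉ T} ≤ Fintype.card {w : W // w ∉ c} := by
    have h1 : Fintype.card {u : U // u ∉ T} ≤ Fintype.card U := Fintype.card_subtype_le _
    have h2 : Fintype.card {w : W // w ∉ c} = Fintype.card W - c.card := by
      have := Fintype.card_subtype_compl (fun w : W => w ∈ c)
      rw [this]
      simp
    omega
  obtain ⟨e⟩ := Function.Embedding.nonempty_of_card_le hc'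
  let G : W → Option (U × Bool) := fun w =>
    if w ∈ c then G₀ w
    else if h : ∃ u : {u : U // u ∉ T}, ((e u : {w : W // w ∉ c}) : W) = w then
      some ((h.choose : {u : U // u ∉ T}).1, β)
    else none
  have hGc : ∀ w ∈ c, G w = G₀ w := by
    intro w hw
    simp only [G, if_pos hw]
  have hGe : ∀ u : {u : U // u ∉ T}, G (e u).1 = some (u.1, β) := by
    intro u
    have hnc : ((e u).1 : W) ∉ c := (e u).2
    have hex : ∃ u' : {u : U // u ∉ T}, ((e u' : {w : W // w ∉ c}) : W) = (e u).1 := ⟨u, rfl⟩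
    have hch : hex.choose = u := by
      have := hex.choose_spec
      exact e.injective (Subtype.ext this)
    simp only [G, if_neg hnc, dif_pos hex, hch]
  have hGn : ∀ w, w ∉ c → ∀ u b, G w = some (u, b) →
      ∃ h : u ∉ T, (e ⟨u, h⟩).1 = w ∧ b = β := by
    intro w hw u b hG
    by_cases hex : ∃ u' : {u : U // u ∉ T}, ((e u' : {w : W // w ∉ c}) : W) = w
    · simp only [G, if_neg hw, dif_pos hex, Option.some.injEq, Prod.mk.injEq] at hG
      obtain ⟨h1, h2⟩ := hG
      have h3 := hex.choose.2
      rw [h1] at h3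
      refine ⟨h3, ?_, h2.symm⟩
      have h4 := hex.choose_spec
      have h5 : hex.choose = ⟨u, h3⟩ := Subtype.ext h1
      rw [h5] at h4
      exact h4
    · simp only [G, if_neg hw, dif_neg hex] at hG
      exact absurd hG (by simp)
  refine ⟨G, ?_, hGc, ?_⟩
  · intro u
    by_cases hu : u ∈ T
    · obtain ⟨w, hw, b, hb⟩ := hu
      refine ⟨w, ⟨b, by rw [hGc w hw]; exact hb⟩, ?_⟩
      rintro w' ⟨b', hb'⟩
      by_cases hw' : w' ∈ c
      · rw [hGc w' hw'] at hb'
        exact (h₀ u).unique ⟨b', hb'⟩ ⟨b, hb⟩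
      · obtain ⟨h, -, -⟩ := hGn w' hw' u b' hb'
        exact absurd ⟨w, hw, b, hb⟩ h
    · refine ⟨(e ⟨u, hu⟩).1, ⟨β, hGe ⟨u, hu⟩⟩, ?_⟩
      rintro w' ⟨b', hb'⟩
      by_cases hw' : w' ∈ c
      · rw [hGc w' hw'] at hb'
        exact absurd ⟨w', hw', b', hb'⟩ hu
      · obtain ⟨h, h', -⟩ := hGn w' hw' u b' hb'
        exact h'.symm
  · -- positions with the other value are touched by `c`
    have hsub : valSet G (!β) ⊆ (c.image (fun w => (G₀ w).map Prod.fst)).eraseNone := by
      intro u hu
      simp only [valSet, mem_filter, mem_univ, true_and] at hu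
      obtain ⟨w, hw⟩ := hu
      by_cases hwc : w ∈ c
      · rw [hGc w hwc] at hw
        simp only [mem_eraseNone, mem_image]
        exact ⟨w, hwc, by rw [hw]; rfl⟩
      · obtain ⟨-, -, h⟩ := hGn w hwc u _ hw
        exact absurd h (by cases β <;> simp)
    calc (valSet G (!β)).card ≤ _ := card_le_card hsub
      _ ≤ (c.image (fun w => (G₀ w).map Prod.fst)).card := by
          have := Finset.card_eraseNone_le (s := c.image (fun w => (G₀ w).map Prod.fst))
          exact this
      _ ≤ c.card := card_image_le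

/-- The state of the greedy halving after `i + j` plantings. -/
structure State {U W Y Z : Type*} [DecidableEq Y] [DecidableEq Z]
    (A : Y → (W → Option (U × Bool)) → ℕ) (B : Z → (W → Option (U × Bool)) → ℕ)
    (dec : Y × ℕ → Z × ℕ → Bool) (t M : ℕ) (i j : ℕ) where
  c : Finset W
  G₀ : W → Option (U × Bool)
  valid : OneValid G₀
  ccard : c.card ≤ t * (i + j)
  ys : Finset (Y × ℕ)
  zs : Finset (Z × ℕ)
  ycard : ys.card * 2 ^ i ≤ 2 ^ M
  zcard : zs.card * 2 ^ j ≤ 2 ^ M
  yin : ∀ G, OneValid G → (∀ w ∈ c, G w = G₀ w) →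
    ∀ y, (∀ z, dec (y, A y G) (z, B z G) = true) → (y, A y G) ∈ ys
  zin : ∀ G, OneValid G → (∀ w ∈ c, G w = G₀ w) →
    ∀ z, (∀ y, dec (y, A y G) (z, B z G) = false) → (z, B z G) ∈ zs
  yreal : ∀ p ∈ ys, ∃ G, OneValid G ∧ (∀ w ∈ c, G w = G₀ w) ∧ A p.1 G = p.2
  zreal : ∀ p ∈ zs, ∃ G, OneValid G ∧ (∀ w ∈ c, G w = G₀ w) ∧ B p.1 G = p.2

/-- locality: the value at `G` is determined by at most `t` look-ups -/
def IsLocal {U W X : Type*} (A : X → (W → Option (U × Bool)) → ℕ) (t : ℕ) : Prop :=
  ∀ x G, ∃ S : Finset W, S.card ≤ t ∧ ∀ G', (∀ w ∈ S, G' w = G w) → A x G' = A x G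

lemma halving_pick {α β : Type*} (s : Finset α) (r : Finset β) (M : α → β → Bool)
    (hs : s.Nonempty) (hr : r.Nonempty) :
    (∃ b ∈ r, 2 * (s.filter (fun a => M a b = true)).card ≤ s.card) ∨
      (∃ a ∈ s, 2 * (r.filter (fun b => M a b = false)).card ≤ r.card) := by
  classical
  by_contra hcon
  push Not at hcon
  obtain ⟨h1, h2⟩ := hcon
  have e1 : ∑ b ∈ r, (s.filter (fun a => M a b = true)).card
      = ∑ a ∈ s, (r.filter (fun b => M a b = true)).card := by
    simp only [card_filter]
    exact sum_comm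
  have e2 : ∀ a ∈ s, (r.filter (fun b => M a b = true)).card
      + (r.filter (fun b => M a b = false)).card = r.card := by
    intro a _
    have := card_filter_add_card_filter_not (s := r) (fun b => M a b = true)
    simpa using this
  have i1 : r.card * s.card < 2 * ∑ b ∈ r, (s.filter (fun a => M a b = true)).card := by
    rw [mul_sum]
    calc r.card * s.card = ∑ _b ∈ r, s.card := by rw [sum_const, smul_eq_mul]
      _ < _ := sum_lt_sum_of_nonempty hr (fun b hb => h1 b hb)
  have i2 : s.card * r.card < 2 * ∑ a ∈ s, (r.filter (fun b => M a b = false)).card := by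
    rw [mul_sum]
    calc s.card * r.card = ∑ _a ∈ s, r.card := by rw [sum_const, smul_eq_mul]
      _ < _ := sum_lt_sum_of_nonempty hs (fun a ha => h2 a ha)
  have e3 : ∑ a ∈ s, (r.filter (fun b => M a b = true)).card
      + ∑ a ∈ s, (r.filter (fun b => M a b = false)).card = s.card * r.card := by
    rw [← sum_add_distrib]
    calc _ = ∑ _a ∈ s, r.card := sum_congr rfl e2
      _ = _ := by rw [sum_const, smul_eq_mul]
  rw [e1] at i1
  have : r.card * s.card = s.card * r.card := mul_comm _ _
  omega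

section step

variable {U W Y Z : Type*} [DecidableEq Y] [DecidableEq Z] [DecidableEq W]
  {A : Y → (W → Option (U × Bool)) → ℕ} {B : Z → (W → Option (U × Bool)) → ℕ}
  {dec : Y × ℕ → Z × ℕ → Bool} {t M i j : ℕ}

open Classical in
/-- plant a z-string -/
noncomputable def State.plantZ (σ : State A B dec t M i j) (hB : IsLocal B t)
    (p : Z × ℕ) (hp : p ∈ σ.zs)
    (hhalf : 2 * (σ.ys.filter (fun a => dec a p = true)).card ≤ σ.ys.card) :
    State A B dec t M (i + 1) j := by
  let G₁ := (σ.zreal p hp).choose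
  have hG₁ := (σ.zreal p hp).choose_spec
  let S := (hB p.1 G₁).choose
  have hS := (hB p.1 G₁).choose_spec
  have hsub : ∀ G : W → Option (U × Bool), (∀ w ∈ σ.c ∪ S, G w = G₁ w) →
      (∀ w ∈ σ.c, G w = σ.G₀ w) ∧ B p.1 G = p.2 := by
    intro G hG
    refine ⟨fun w hw => ?_, ?_⟩
    · rw [hG w (mem_union_left _ hw)]
      exact hG₁.2.1 w hw
    · rw [hS.2 G (fun w hw => hG w (mem_union_right _ hw))]
      exact hG₁.2.2
  exact
  { c := σ.c ∪ S
    G₀ := G₁
    valid := hG₁.1
    ccard := by
      calc (σ.c ∪ S).card ≤ σ.c.card + S.card := card_union_le _ _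
        _ ≤ t * (i + j) + t := add_le_add σ.ccard hS.1
        _ = t * (i + 1 + j) := by ring
    ys := (σ.ys.filter (fun a => dec a p = true)).filter
      (fun a => ∃ G, OneValid G ∧ (∀ w ∈ σ.c ∪ S, G w = G₁ w) ∧ A a.1 G = a.2)
    zs := σ.zs.filter
      (fun a => ∃ G, OneValid G ∧ (∀ w ∈ σ.c ∪ S, G w = G₁ w) ∧ B a.1 G = a.2)
    ycard := by
      have h1 := card_filter_le (σ.ys.filter (fun a => dec a p = true))
        (fun a => ∃ G, OneValid G ∧ (∀ w ∈ σ.c ∪ S, G w = G₁ w) ∧ A a.1 G = a.2)
      have h2 := σ.ycard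
      rw [pow_succ]
      calc _ ≤ (σ.ys.filter (fun a => dec a p = true)).card * (2 ^ i * 2) :=
            Nat.mul_le_mul_right _ h1
        _ = 2 * (σ.ys.filter (fun a => dec a p = true)).card * 2 ^ i := by ring
        _ ≤ σ.ys.card * 2 ^ i := Nat.mul_le_mul_right _ hhalf
        _ ≤ _ := h2
    zcard := by
      exact le_trans (Nat.mul_le_mul_right _ (card_filter_le _ _)) σ.zcard
    yin := by
      intro G hG hGc y hy
      obtain ⟨h1, h2⟩ := hsub G hGc
      simp only [mem_filter]
      refine ⟨⟨σ.yin G hG h1 y hy, ?_⟩, G, hG, hGc, rfl⟩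
      have := hy p.1
      rw [h2] at this
      exact this
    zin := by
      intro G hG hGc z hz
      obtain ⟨h1, -⟩ := hsub G hGc
      simp only [mem_filter]
      exact ⟨σ.zin G hG h1 z hz, G, hG, hGc, rfl⟩
    yreal := by
      intro q hq
      exact (mem_filter.1 hq).2
    zreal := by
      intro q hq
      exact (mem_filter.1 hq).2 }

open Classical in
/-- plant a y-string -/
noncomputable def State.plantY (σ : State A B dec t M i j) (hA : IsLocal A t)
    (p : Y × ℕ) (hp : p ∈ σ.ys)
    (hhalf : 2 * (σ.zs.filter (fun a => dec p a = false)).card ≤ σ.zs.card) :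
    State A B dec t M i (j + 1) := by
  let G₁ := (σ.yreal p hp).choose
  have hG₁ := (σ.yreal p hp).choose_spec
  let S := (hA p.1 G₁).choose
  have hS := (hA p.1 G₁).choose_spec
  have hsub : ∀ G : W → Option (U × Bool), (∀ w ∈ σ.c ∪ S, G w = G₁ w) →
      (∀ w ∈ σ.c, G w = σ.G₀ w) ∧ A p.1 G = p.2 := by
    intro G hG
    refine ⟨fun w hw => ?_, ?_⟩
    · rw [hG w (mem_union_left _ hw)]
      exact hG₁.2.1 w hw
    · rw [hS.2 G (fun w hw => hG w (mem_union_right _ hw))]
      exact hG₁.2.2
  exact
  { c := σ.c ∪ S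
    G₀ := G₁
    valid := hG₁.1
    ccard := by
      calc (σ.c ∪ S).card ≤ σ.c.card + S.card := card_union_le _ _
        _ ≤ t * (i + j) + t := add_le_add σ.ccard hS.1
        _ = t * (i + (j + 1)) := by ring
    zs := (σ.zs.filter (fun a => dec p a = false)).filter
      (fun a => ∃ G, OneValid G ∧ (∀ w ∈ σ.c ∪ S, G w = G₁ w) ∧ B a.1 G = a.2)
    ys := σ.ys.filter
      (fun a => ∃ G, OneValid G ∧ (∀ w ∈ σ.c ∪ S, G w = G₁ w) ∧ A a.1 G = a.2)
    zcard := by
      have h1 := card_filter_le (σ.zs.filter (fun a => dec p a = false))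
        (fun a => ∃ G, OneValid G ∧ (∀ w ∈ σ.c ∪ S, G w = G₁ w) ∧ B a.1 G = a.2)
      have h2 := σ.zcard
      rw [pow_succ]
      calc _ ≤ (σ.zs.filter (fun a => dec p a = false)).card * (2 ^ j * 2) :=
            Nat.mul_le_mul_right _ h1
        _ = 2 * (σ.zs.filter (fun a => dec p a = false)).card * 2 ^ j := by ring
        _ ≤ σ.zs.card * 2 ^ j := Nat.mul_le_mul_right _ hhalf
        _ ≤ _ := h2
    ycard := by
      exact le_trans (Nat.mul_le_mul_right _ (card_filter_le _ _)) σ.ycard
    zin := by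
      intro G hG hGc z hz
      obtain ⟨h1, h2⟩ := hsub G hGc
      simp only [mem_filter]
      refine ⟨⟨σ.zin G hG h1 z hz, ?_⟩, G, hG, hGc, rfl⟩
      have := hz p.1
      rw [h2] at this
      exact this
    yin := by
      intro G hG hGc y hy
      obtain ⟨h1, -⟩ := hsub G hGc
      simp only [mem_filter]
      exact ⟨σ.yin G hG h1 y hy, G, hG, hGc, rfl⟩
    yreal := by
      intro q hq
      exact (mem_filter.1 hq).2
    zreal := by
      intro q hq
      exact (mem_filter.1 hq).2 }

end step

/-- **Core**: no certificate-supplied protocol with short strings separates few zeros from few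
ones (one length, everything abstract). -/
theorem core {U W Y Z : Type*} [Fintype U] [Fintype W] [DecidableEq W]
    [DecidableEq Y] [DecidableEq Z]
    (A : Y → (W → Option (U × Bool)) → ℕ) (B : Z → (W → Option (U × Bool)) → ℕ)
    (dec : Y × ℕ → Z × ℕ → Bool) (t M : ℕ)
    (hA : IsLocal A t) (hB : IsLocal B t)
    (ys₀ : Finset (Y × ℕ)) (zs₀ : Finset (Z × ℕ))
    (hys : ys₀.card ≤ 2 ^ M) (hzs : zs₀.card ≤ 2 ^ M)
    (hys' : ∀ y G, OneValid G → (y, A y G) ∈ ys₀) (hzs' : ∀ z G, OneValid G → (z, B z G) ∈ zs₀)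
    (K : ℕ) (hK : t * (2 * M + 1) ≤ K) (hW : K + Fintype.card U ≤ Fintype.card W)
    (hyes : ∀ G, OneValid G → (valSet G false).card ≤ K →
      ∃ y, ∀ z, dec (y, A y G) (z, B z G) = true)
    (hno : ∀ G, OneValid G → (valSet G true).card ≤ K →
      ∃ z, ∀ y, dec (y, A y G) (z, B z G) = false) : False := by
  classical
  -- nonemptiness as long as few plantings happened
  have hne : ∀ i j, i + j ≤ 2 * M + 1 → ∀ σ : State A B dec t M i j,
      σ.ys.Nonempty ∧ σ.zs.Nonempty := by
    intro i j hij σ
    have hc : σ.c.card ≤ K := le_trans σ.ccard (le_trans (Nat.mul_le_mul_left t hij) hK)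
    have hc' : σ.c.card + Fintype.card U ≤ Fintype.card W := by omega
    constructor
    · obtain ⟨G, hG, hGc, hz⟩ := exists_completion σ.G₀ σ.valid σ.c true hc'
      obtain ⟨y, hy⟩ := hyes G hG (le_trans hz hc)
      exact ⟨_, σ.yin G hG hGc y hy⟩
    · obtain ⟨G, hG, hGc, hz⟩ := exists_completion σ.G₀ σ.valid σ.c false hc'
      obtain ⟨z, hy⟩ := hno G hG (le_trans hz hc)
      exact ⟨_, σ.zin G hG hGc z hy⟩
  -- states exist at every total number of steps
  have hstep : ∀ s, s ≤ 2 * M + 1 → ∃ i j, i + j = s ∧ Nonempty (State A B dec t M i j) := by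
    intro s
    induction s with
    | zero =>
      intro _
      -- initial valid world
      have hcard0 : Fintype.card U ≤ Fintype.card W := by omega
      obtain ⟨e⟩ := Function.Embedding.nonempty_of_card_le hcard0
      let G : W → Option (U × Bool) := fun w =>
        if h : ∃ u, e u = w then some (h.choose, true) else none
      have hG : OneValid G := by
        intro u
        have hex : ∃ u', e u' = e u := ⟨u, rfl⟩
        have hch : hex.choose = u := e.injective hex.choose_spec
        refine ⟨e u, ⟨true, ?_⟩, ?_⟩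
        · simp only [G, dif_pos hex, hch]
        · rintro w ⟨b, hb⟩
          by_cases hw : ∃ u', e u' = w
          · simp only [G, dif_pos hw, Option.some.injEq, Prod.mk.injEq] at hb
            rw [← hb.1]
            exact hw.choose_spec.symm
          · simp only [G, dif_neg hw] at hb
            exact absurd hb (by simp)
      refine ⟨0, 0, rfl, ⟨?_⟩⟩
      exact
      { c := ∅
        G₀ := G
        valid := hG
        ccard := by simp
        ys := ys₀.filter (fun p => ∃ G', OneValid G' ∧ (∀ w ∈ (∅ : Finset W), G' w = G w) ∧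
          A p.1 G' = p.2)
        zs := zs₀.filter (fun p => ∃ G', OneValid G' ∧ (∀ w ∈ (∅ : Finset W), G' w = G w) ∧
          B p.1 G' = p.2)
        ycard := by
          simpa using le_trans (card_filter_le _ _) hys
        zcard := by
          simpa using le_trans (card_filter_le _ _) hzs
        yin := by
          intro G' hG' hc y _
          simp only [mem_filter]
          exact ⟨hys' y G' hG', G', hG', hc, rfl⟩
        zin := by
          intro G' hG' hc z _
          simp only [mem_filter]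
          exact ⟨hzs' z G' hG', G', hG', hc, rfl⟩
        yreal := fun q hq => (mem_filter.1 hq).2
        zreal := fun q hq => (mem_filter.1 hq).2 }
    | succ s ih =>
      intro hs
      obtain ⟨i, j, hij, ⟨σ⟩⟩ := ih (by omega)
      obtain ⟨hy, hz⟩ := hne i j (by omega) σ
      rcases halving_pick σ.ys σ.zs (fun a b => dec a b) hy hz with
        ⟨p, hp, hh⟩ | ⟨p, hp, hh⟩
      · exact ⟨i + 1, j, by omega, ⟨σ.plantZ hB p hp hh⟩⟩
      · exact ⟨i, j + 1, by omega, ⟨σ.plantY hA p hp hh⟩⟩
  obtain ⟨i, j, hij, ⟨σ⟩⟩ := hstep (2 * M + 1) le_rfl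
  obtain ⟨hy, hz⟩ := hne i j (by omega) σ
  have hor : M + 1 ≤ i ∨ M + 1 ≤ j := by omega
  rcases hor with h | h
  · have h1 : 2 ^ (M + 1) ≤ σ.ys.card * 2 ^ i := by
      calc 2 ^ (M + 1) ≤ 2 ^ i := Nat.pow_le_pow_right (by norm_num) h
        _ = 1 * 2 ^ i := (one_mul _).symm
        _ ≤ _ := Nat.mul_le_mul_right _ hy.card_pos
    have h2 := le_trans h1 σ.ycard
    have h3 : 2 ^ M < 2 ^ (M + 1) := Nat.pow_lt_pow_right (by norm_num) (Nat.lt_succ_self M)
    omega
  · have h1 : 2 ^ (M + 1) ≤ σ.zs.card * 2 ^ j := by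
      calc 2 ^ (M + 1) ≤ 2 ^ j := Nat.pow_le_pow_right (by norm_num) h
        _ = 1 * 2 ^ j := (one_mul _).symm
        _ ≤ _ := Nat.mul_le_mul_right _ hz.card_pos
    have h2 := le_trans h1 σ.zcard
    have h3 : 2 ^ M < 2 ^ (M + 1) := Nat.pow_lt_pow_right (by norm_num) (Nat.lt_succ_self M)
    omega

end Pool.Agent.H.MP_7934a7_lc
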