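import Mathlib

/-!
Row core: random all-ones rows, what a fixed string can know, and the choice of a row with few
ones that is accepted against at least half of a given set of strings.
-/

namespace Pool.Agent.H.MP_7934a7_lc.Row

open Finset

/-- decision trees over one row: ask whether the entry at `u` is the pair `p` -/
inductive RT (U W : Type) : Type
  | out (r : ℕ) : RT U W
  | ask (u : U) (p : Bool × W) (no yes : RT U W) : RT U W

variable {U W : Type} [DecidableEq U] [DecidableEq W]

/-- run on a row -/
def RT.run (R : U → Bool × W) : RT U W → ℕ
  | .out r => r
  | .ask u p a b => if R u = p then b.run R else a.run R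

/-- depth -/
def RT.depth : RT U W → ℕ
  | .out _ => 0
  | .ask _ _ a b => max a.depth b.depth + 1

/-- the all-ones row with witness function `F` -/
def ones (F : U → W) : U → Bool × W := fun u => (true, F u)

/-- positions with a positive answer in the run on the all-ones row `F` -/
def RT.hits (F : U → W) : RT U W → Finset U
  | .out _ => ∅
  | .ask u p a b => if ones F u = p then insert u (b.hits F) else a.hits F

/-- the questions for zero entries in the run on the all-ones row `F` -/
def RT.zq (F : U → W) : RT U W → Finset (U × W)
  | .out _ => ∅
  | .ask u p a b =>
    if ones F u = p then b.zq F
    else if p.1 = false then insert (u, p.2) (a.zq F) else a.zq F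

lemma RT.card_hits (F : U → W) (T : RT U W) : (T.hits F).card ≤ T.depth := by
  induction T with
  | out r => simp [RT.hits, RT.depth]
  | ask u p a b iha ihb =>
    simp only [RT.hits, RT.depth]
    split_ifs
    · refine le_trans (card_insert_le _ _) ?_
      have := le_max_right a.depth b.depth
      omega
    · have := le_max_left a.depth b.depth
      omega

lemma RT.card_zq (F : U → W) (T : RT U W) : (T.zq F).card ≤ T.depth := by
  induction T with
  | out r => simp [RT.zq, RT.depth]
  | ask u p a b iha ihb =>
    have h1 := le_max_right a.depth b.depth
    have h2 := le_max_left a.depth b.depth
    simp only [RT.zq, RT.depth]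
    split_ifs
    · omega
    · refine le_trans (card_insert_le _ _) ?_
      omega
    · omega

/-- the mixed row: ones on `P`, zeros elsewhere -/
def mix (F w₀ : U → W) (P : Finset U) : U → Bool × W :=
  fun u => if u ∈ P then (true, F u) else (false, w₀ u)

lemma RT.run_mix (F w₀ : U → W) (P : Finset U) (T : RT U W) (h : T.hits F ⊆ P)
    (hz : ∀ q ∈ T.zq F, w₀ q.1 ≠ q.2) : T.run (mix F w₀ P) = T.run (ones F) := by
  induction T with
  | out r => rfl
  | ask u p a b iha ihb =>
    simp only [RT.run]
    by_cases hp : ones F u = p
    · simp only [RT.hits, if_pos hp] at h
      simp only [RT.zq, if_pos hp] at hz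
      have hu : u ∈ P := h (mem_insert_self _ _)
      have h1 : mix F w₀ P u = p := by
        rw [← hp]
        simp only [mix, if_pos hu, ones]
      rw [if_pos h1, if_pos hp]
      exact ihb (fun v hv => h (mem_insert_of_mem hv)) hz
    · simp only [RT.hits, if_neg hp] at h
      have h1 : mix F w₀ P u ≠ p := by
        intro h1
        by_cases hu : u ∈ P
        · simp only [mix, if_pos hu] at h1
          exact hp h1
        · simp only [mix, if_neg hu] at h1
          have hp1 : p.1 = false := by rw [← h1]
          simp only [RT.zq, if_neg hp, if_pos hp1] at hz
          exact hz (u, p.2) (mem_insert_self _ _) (by rw [← h1])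
      rw [if_neg h1, if_neg hp]
      refine iha h ?_
      intro q hq
      apply hz
      simp only [RT.zq, if_neg hp]
      split_ifs
      · exact mem_insert_of_mem hq
      · exact hq

/-- union of the hits of a list of trees -/
def hitsL (F : U → W) : List (RT U W) → Finset U
  | [] => ∅
  | T :: L => T.hits F ∪ hitsL F L

/-- total depth -/
def depthL : List (RT U W) → ℕ
  | [] => 0
  | T :: L => T.depth + depthL L

section count

variable [Fintype U] [Fintype W]

/-- extensions of a partial row -/
def ext (D : Finset U) (c : U → W) : Finset (U → W) := univ.filter (fun F => ∀ u ∈ D, F u = c u)

lemma card_ext [Nonempty W] (D : Finset U) (c : U → W) :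
    (ext D c).card = Fintype.card W ^ (Fintype.card U - D.card) := by
  classical
  have h1 : ext D c = Fintype.piFinset (fun u => if u ∈ D then ({c u} : Finset W) else univ) := by
    ext F
    simp only [ext, mem_filter, mem_univ, true_and, Fintype.mem_piFinset]
    constructor
    · intro h u
      by_cases hu : u ∈ D
      · simp [hu, h u hu]
      · simp [hu]
    · intro h u hu
      have := h u
      simpa [hu] using this
  rw [h1, Fintype.card_piFinset]
  have h2 : ∀ u : U, (if u ∈ D then ({c u} : Finset W) else univ).card
      = if u ∈ D then 1 else Fintype.card W := by
    intro u
    split_ifs <;> simp
  simp only [h2]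
  rw [prod_ite]
  simp only [prod_const_one, one_mul, prod_const]
  congr 1
  have : (univ.filter (fun u => u ∉ D)) = Dᶜ := by
    ext u; simp
  rw [this, card_compl]

/-- few rows allow many hits -/
lemma count_hits [Nonempty W] (L : List (RT U W)) :
    ∀ (D : Finset U) (c : U → W) (h : ℕ),
      ((ext D c).filter (fun F => h ≤ (hitsL F L \ D).card)).card * Fintype.card W ^ h
        ≤ (depthL L).choose h * Fintype.card W ^ (Fintype.card U - D.card) := by
  classical
  induction L with
  | nil =>
    intro D c h
    cases h with
    | zero =>
      simp only [pow_zero, mul_one, Nat.choose_zero_right, one_mul]
      rw [← card_ext D c]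
      exact card_filter_le _ _
    | succ h =>
      have : (ext D c).filter (fun F => h + 1 ≤ (hitsL F ([] : List (RT U W)) \ D).card) = ∅ := by
        ext F
        simp [hitsL]
      rw [this]
      simp
  | cons T L ihL =>
    induction T with
    | out r =>
      intro D c h
      have h1 : ∀ F : U → W, hitsL F (RT.out r :: L) = hitsL F L := by
        intro F
        simp [hitsL, RT.hits]
      have h2 : depthL (RT.out r :: L : List (RT U W)) = depthL L := by
        simp [depthL, RT.depth]
      simp only [h1, h2]
      exact ihL D c h
    | ask u p a b iha ihb =>
      intro D c h
      have hda : depthL (a :: L) + 1 ≤ depthL (RT.ask u p a b :: L) := by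
        simp only [depthL, RT.depth]
        have := le_max_left a.depth b.depth
        omega
      have hdb : depthL (b :: L) + 1 ≤ depthL (RT.ask u p a b :: L) := by
        simp only [depthL, RT.depth]
        have := le_max_right a.depth b.depth
        omega
      have hno : ∀ F : U → W, ones F u ≠ p →
          hitsL F (RT.ask u p a b :: L) = hitsL F (a :: L) := by
        intro F hF
        simp [hitsL, RT.hits, hF]
      have hyes : ∀ F : U → W, ones F u = p →
          hitsL F (RT.ask u p a b :: L) = insert u (hitsL F (b :: L)) := by
        intro F hF
        simp [hitsL, RT.hits, hF]
      by_cases hp : p.1 = false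
      · -- never a positive answer
        have hne : ∀ F : U → W, ones F u ≠ p := by
          intro F hF
          rw [← hF] at hp
          simp [ones] at hp
        have h1 : (ext D c).filter (fun F => h ≤ (hitsL F (RT.ask u p a b :: L) \ D).card)
            = (ext D c).filter (fun F => h ≤ (hitsL F (a :: L) \ D).card) := by
          ext F
          simp only [mem_filter, hno F (hne F)]
        rw [h1]
        refine le_trans (iha D c h) (Nat.mul_le_mul_right _ ?_)
        exact Nat.choose_le_choose h (by omega)
      · have hp1 : p.1 = true := by simpa using hp
        have hpe : ∀ F : U → W, ones F u = p ↔ F u = p.2 := by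
          intro F
          constructor
          · intro hF; rw [← hF]; rfl
          · intro hF
            ext1
            · exact hp1.symm
            · exact hF
        by_cases hu : u ∈ D
        · by_cases hc : c u = p.2
          · have h1 : (ext D c).filter (fun F => h ≤ (hitsL F (RT.ask u p a b :: L) \ D).card)
                = (ext D c).filter (fun F => h ≤ (hitsL F (b :: L) \ D).card) := by
              ext F
              simp only [mem_filter]
              constructor
              · rintro ⟨hF, hh⟩
                refine ⟨hF, ?_⟩
                have hFu : F u = p.2 := by
                  rw [← hc]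
                  exact (mem_filter.1 hF).2 u hu
                rw [hyes F ((hpe F).2 hFu), insert_sdiff_of_mem _ hu] at hh
                exact hh
              · rintro ⟨hF, hh⟩
                refine ⟨hF, ?_⟩
                have hFu : F u = p.2 := by
                  rw [← hc]
                  exact (mem_filter.1 hF).2 u hu
                rw [hyes F ((hpe F).2 hFu), insert_sdiff_of_mem _ hu]
                exact hh
            rw [h1]
            refine le_trans (ihb D c h) (Nat.mul_le_mul_right _ ?_)
            exact Nat.choose_le_choose h (by omega)
          · have h1 : (ext D c).filter (fun F => h ≤ (hitsL F (RT.ask u p a b :: L) \ D).card)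
                = (ext D c).filter (fun F => h ≤ (hitsL F (a :: L) \ D).card) := by
              ext F
              simp only [mem_filter]
              constructor
              · rintro ⟨hF, hh⟩
                refine ⟨hF, ?_⟩
                have hFu : F u ≠ p.2 := by
                  rw [(mem_filter.1 hF).2 u hu]
                  exact hc
                rw [hno F (fun h => hFu ((hpe F).1 h))] at hh
                exact hh
              · rintro ⟨hF, hh⟩
                refine ⟨hF, ?_⟩
                have hFu : F u ≠ p.2 := by
                  rw [(mem_filter.1 hF).2 u hu]
                  exact hc
                rw [hno F (fun h => hFu ((hpe F).1 h))]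
                exact hh
            rw [h1]
            refine le_trans (iha D c h) (Nat.mul_le_mul_right _ ?_)
            exact Nat.choose_le_choose h (by omega)
        · -- a new position
          cases h with
          | zero =>
            simp only [pow_zero, mul_one, Nat.choose_zero_right, one_mul]
            rw [← card_ext D c]
            exact card_filter_le _ _
          | succ h =>
            let D' := insert u D
            let c' := Function.update c u p.2
            have hD' : D'.card = D.card + 1 := card_insert_of_notMem hu
            have hsub : (ext D c).filter
                (fun F => h + 1 ≤ (hitsL F (RT.ask u p a b :: L) \ D).card)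
                ⊆ (ext D c).filter (fun F => h + 1 ≤ (hitsL F (a :: L) \ D).card)
                  ∪ (ext D' c').filter (fun F => h ≤ (hitsL F (b :: L) \ D').card) := by
              intro F hF
              obtain ⟨hF1, hF2⟩ := mem_filter.1 hF
              by_cases hFu : F u = p.2
              · refine mem_union_right _ (mem_filter.2 ⟨?_, ?_⟩)
                · simp only [ext, mem_filter, mem_univ, true_and]
                  intro v hv
                  rcases mem_insert.1 hv with rfl | hv
                  · simp [c', hFu]
                  · have hne : v ≠ u := fun h => hu (h ▸ hv)
                    simp only [c', Function.update_of_ne hne]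
                    exact (mem_filter.1 hF1).2 v hv
                · rw [hyes F ((hpe F).2 hFu)] at hF2
                  have h3 : insert u (hitsL F (b :: L)) \ D ⊆ insert u (hitsL F (b :: L) \ D') := by
                    intro v hv
                    obtain ⟨hv1, hv2⟩ := mem_sdiff.1 hv
                    by_cases hvu : v = u
                    · rw [hvu]; exact mem_insert_self _ _
                    · refine mem_insert_of_mem (mem_sdiff.2 ⟨?_, ?_⟩)
                      · exact (mem_insert.1 hv1).resolve_left hvu
                      · intro h; exact (mem_insert.1 h).elim hvu hv2
                  have h4 := card_le_card h3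
                  have h5 := card_insert_le u (hitsL F (b :: L) \ D')
                  omega
              · refine mem_union_left _ (mem_filter.2 ⟨hF1, ?_⟩)
                rw [hno F (fun h => hFu ((hpe F).1 h))] at hF2
                exact hF2
            have h1 := iha D c (h + 1)
            have h2 := ihb D' c' h
            have hcard := le_trans (card_le_card hsub) (card_union_le _ _)
            have hDU : D.card < Fintype.card U := by
              rw [← card_univ]
              exact card_lt_card ⟨subset_univ _, fun h => hu (h (mem_univ u))⟩
            have hexp : Fintype.card U - D.card = (Fintype.card U - D'.card) + 1 := by omega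
            have h2' : ((ext D' c').filter (fun F => h ≤ (hitsL F (b :: L) \ D').card)).card
                * Fintype.card W ^ (h + 1)
                ≤ (depthL (b :: L)).choose h * Fintype.card W ^ (Fintype.card U - D.card) := by
              rw [hexp, pow_succ, pow_succ, ← mul_assoc, ← mul_assoc]
              exact Nat.mul_le_mul_right _ h2
            have hch : (depthL (a :: L)).choose (h + 1) + (depthL (b :: L)).choose h
                ≤ (depthL (RT.ask u p a b :: L)).choose (h + 1) := by
              obtain ⟨d, hd⟩ : ∃ d, depthL (RT.ask u p a b :: L) = d + 1 := ⟨_, (Nat.succ_pred_eq_of_pos (by omega)).symm⟩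
              rw [hd, Nat.choose_succ_succ']
              have e1 : (depthL (a :: L)).choose (h + 1) ≤ d.choose (h + 1) :=
                Nat.choose_le_choose _ (by omega)
              have e2 : (depthL (b :: L)).choose h ≤ d.choose h :=
                Nat.choose_le_choose _ (by omega)
              omega
            calc _ ≤ (((ext D c).filter (fun F => h + 1 ≤ (hitsL F (a :: L) \ D).card)).card
                  + ((ext D' c').filter (fun F => h ≤ (hitsL F (b :: L) \ D').card)).card)
                  * Fintype.card W ^ (h + 1) := Nat.mul_le_mul_right _ hcard
              _ ≤ (depthL (a :: L)).choose (h + 1) * Fintype.card W ^ (Fintype.card U - D.card)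
                  + (depthL (b :: L)).choose h * Fintype.card W ^ (Fintype.card U - D.card) := by
                rw [add_mul]
                exact add_le_add h1 h2'
              _ = ((depthL (a :: L)).choose (h + 1) + (depthL (b :: L)).choose h)
                  * Fintype.card W ^ (Fintype.card U - D.card) := by ring
              _ ≤ _ := Nat.mul_le_mul_right _ hch

end count

end Pool.Agent.H.MP_7934a7_lc.Row
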