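import Mathlib
import Pool.Agent.H.MP_7934a7_lc.RowCore

/-!
The choice of a row with few ones which one string of the first prover makes accepted against at
least half of the strings of the second prover.
-/

namespace Pool.Agent.H.MP_7934a7_lc.Row

open Finset

section general

lemma sum_update {α : Type*} [Fintype α] {r : ℕ} (j : Fin r) (f : (Fin r → α) → ℕ) :
    ∑ ζ : Fin r → α, ∑ z : α, f (Function.update ζ j z) = Fintype.card α * ∑ ζ, f ζ := by
  classical
  rw [← Finset.sum_product']
  let e : ((Fin r → α) × α) ≃ ((Fin r → α) × α) :=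
    { toFun := fun p => (Function.update p.1 j p.2, p.1 j)
      invFun := fun p => (Function.update p.1 j p.2, p.1 j)
      left_inv := by
        rintro ⟨ζ, z⟩
        simp
      right_inv := by
        rintro ⟨ζ, z⟩
        simp }
  have h1 : ∑ p ∈ (univ : Finset (Fin r → α)) ×ˢ (univ : Finset α), f (Function.update p.1 j p.2)
      = ∑ p : (Fin r → α) × α, f (e p).1 := by
    rw [univ_product_univ]
    rfl
  rw [h1, Equiv.sum_comp e (fun p => f p.1), Fintype.sum_prod_type]
  simp only [sum_const, card_univ, smul_eq_mul]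
  rw [mul_sum]

lemma card_new {U : Type*} [DecidableEq U] {r : ℕ} (A : Fin r → Finset U) :
    (univ.filter (fun j => ¬ (A j ⊆ (univ.filter (fun i => i < j)).biUnion A))).card
      ≤ (univ.biUnion A).card := by
  classical
  have hex : ∀ j : Fin r, ¬ (A j ⊆ (univ.filter (fun i => i < j)).biUnion A) →
      ∃ u, u ∈ A j ∧ ∀ i < j, u ∉ A i := by
    intro j hj
    obtain ⟨u, hu, hu'⟩ := not_subset.1 hj
    refine ⟨u, hu, fun i hi h => hu' ?_⟩
    exact mem_biUnion.2 ⟨i, mem_filter.2 ⟨mem_univ _, hi⟩, h⟩
  rcases isEmpty_or_nonempty U with hU | hU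
  · have h0 : (univ.filter (fun j => ¬ (A j ⊆ (univ.filter (fun i => i < j)).biUnion A))) = ∅ := by
      refine filter_eq_empty_iff.2 (fun j _ h => ?_)
      obtain ⟨u, -⟩ := hex j h
      exact hU.elim u
    rw [h0]
    simp
  choose! g hg using hex
  refine card_le_card_of_injOn g ?_ ?_
  · intro j hj
    have hj' := (mem_filter.1 (mem_coe.1 hj)).2
    exact mem_coe.2 (mem_biUnion.2 ⟨j, mem_univ _, (hg j hj').1⟩)
  · intro i hi j hj hij
    have hi' := (mem_filter.1 (mem_coe.1 hi)).2
    have hj' := (mem_filter.1 (mem_coe.1 hj)).2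
    rcases lt_trichotomy i j with h | h | h
    · exact absurd (hij ▸ (hg i hi').1) ((hg j hj').2 i h)
    · exact h
    · exact absurd (hij ▸ (hg j hj').1) ((hg i hi').2 j h)

end general

variable {U W : Type} [DecidableEq U] [DecidableEq W]

lemma mem_hitsL (F : U → W) (L : List (RT U W)) (u : U) :
    u ∈ hitsL F L ↔ ∃ T ∈ L, u ∈ T.hits F := by
  induction L with
  | nil => simp [hitsL]
  | cons T L ih => simp [hitsL, ih]

lemma depthL_le (L : List (RT U W)) (t : ℕ) (h : ∀ T ∈ L, T.depth ≤ t) :
    depthL L ≤ L.length * t := by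
  induction L with
  | nil => simp [depthL]
  | cons T L ih =>
    have h1 := ih (fun S hS => h S (List.mem_cons_of_mem _ hS))
    have h2 := h T List.mem_cons_self
    simp only [depthL, List.length_cons]
    calc T.depth + depthL L ≤ t + L.length * t := add_le_add h2 h1
      _ = (L.length + 1) * t := by ring

variable [Fintype U] [Fintype W]

lemma card_rows : Fintype.card (U → W) = Fintype.card W ^ Fintype.card U := by
  simp

/-- for a fixed sequence of strings, only an eighth of the rows lets some `y` know `m + 3`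
witnesses -/
lemma count_bad [Nonempty W] {Y : Type} [Fintype Y] (m t r : ℕ) (hY : Fintype.card Y ≤ 2 ^ m)
    (L : Y → List (RT U W)) (hlen : ∀ y, (L y).length = r) (hL : ∀ y, ∀ T ∈ L y, T.depth ≤ t)
    (hW : 2 * (r * t) ≤ Fintype.card W) :
    (univ.filter (fun F : U → W => ∃ y, m + 3 ≤ (hitsL F (L y)).card)).card * 8
      ≤ Fintype.card W ^ Fintype.card U := by
  classical
  have hWpos : 0 < Fintype.card W := Fintype.card_pos
  have hone : ∀ y, (univ.filter (fun F : U → W => m + 3 ≤ (hitsL F (L y)).card)).card * 2 ^ (m + 3)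
      ≤ Fintype.card W ^ Fintype.card U := by
    intro y
    have h0 := count_hits (L y) ∅ (fun _ => Classical.arbitrary W) (m + 3)
    have h1 : (ext (∅ : Finset U) (fun _ => Classical.arbitrary W)).filter
        (fun F => m + 3 ≤ (hitsL F (L y) \ ∅).card)
        = univ.filter (fun F : U → W => m + 3 ≤ (hitsL F (L y)).card) := by
      ext F
      simp [ext]
    rw [h1, card_empty, Nat.sub_zero] at h0
    have hd : depthL (L y) ≤ r * t := by
      have := depthL_le (L y) t (hL y)
      rwa [hlen y] at this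
    rcases Nat.eq_zero_or_pos (r * t) with hz | hpos
    · have hd0 : depthL (L y) = 0 := by omega
      rw [hd0, Nat.choose_eq_zero_of_lt (by omega : 0 < m + 3), zero_mul] at h0
      have h2 : (univ.filter (fun F : U → W => m + 3 ≤ (hitsL F (L y)).card)).card = 0 := by
        have h3 := Nat.le_zero.1 h0
        rcases Nat.mul_eq_zero.1 h3 with h | h
        · exact h
        · exact absurd h (by positivity)
      rw [h2, zero_mul]
      exact Nat.zero_le _
    · have h2 : (depthL (L y)).choose (m + 3) ≤ (r * t) ^ (m + 3) :=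
        le_trans (Nat.choose_le_pow _ _) (Nat.pow_le_pow_left hd _)
      have h3 : (2 * (r * t)) ^ (m + 3) ≤ Fintype.card W ^ (m + 3) := Nat.pow_le_pow_left hW _
      have h4 : (univ.filter (fun F : U → W => m + 3 ≤ (hitsL F (L y)).card)).card
          * (2 * (r * t)) ^ (m + 3)
          ≤ (r * t) ^ (m + 3) * Fintype.card W ^ Fintype.card U := by
        calc _ ≤ _ := Nat.mul_le_mul_left _ h3
          _ ≤ _ := h0
          _ ≤ _ := Nat.mul_le_mul_right _ h2
      rw [mul_pow] at h4
      have h5 : 0 < (r * t) ^ (m + 3) := by positivity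
      refine Nat.le_of_mul_le_mul_left (c := (r * t) ^ (m + 3)) ?_ h5 |>.trans le_rfl
      calc (r * t) ^ (m + 3)
            * ((univ.filter (fun F : U → W => m + 3 ≤ (hitsL F (L y)).card)).card * 2 ^ (m + 3))
          = (univ.filter (fun F : U → W => m + 3 ≤ (hitsL F (L y)).card)).card
            * (2 ^ (m + 3) * (r * t) ^ (m + 3)) := by ring
        _ ≤ _ := h4
  have hsub : (univ.filter (fun F : U → W => ∃ y, m + 3 ≤ (hitsL F (L y)).card))
      ⊆ univ.biUnion (fun y => univ.filter (fun F : U → W => m + 3 ≤ (hitsL F (L y)).card)) := by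
    intro F hF
    simpa using hF
  have h1 : (univ.filter (fun F : U → W => ∃ y, m + 3 ≤ (hitsL F (L y)).card)).card * 2 ^ (m + 3)
      ≤ 2 ^ m * Fintype.card W ^ Fintype.card U := by
    calc _ ≤ (∑ y : Y, (univ.filter (fun F : U → W => m + 3 ≤ (hitsL F (L y)).card)).card)
          * 2 ^ (m + 3) := Nat.mul_le_mul_right _ (le_trans (card_le_card hsub) card_biUnion_le)
      _ = ∑ y : Y, (univ.filter (fun F : U → W => m + 3 ≤ (hitsL F (L y)).card)).card
          * 2 ^ (m + 3) := sum_mul _ _ _
      _ ≤ ∑ _y : Y, Fintype.card W ^ Fintype.card U := sum_le_sum (fun y _ => hone y)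
      _ = Fintype.card Y * Fintype.card W ^ Fintype.card U := by simp
      _ ≤ _ := Nat.mul_le_mul_right _ hY
  have h2 : 0 < 2 ^ m := by positivity
  refine Nat.le_of_mul_le_mul_left (c := 2 ^ m) ?_ h2
  calc 2 ^ m * ((univ.filter (fun F : U → W => ∃ y, m + 3 ≤ (hitsL F (L y)).card)).card * 8)
      = (univ.filter (fun F : U → W => ∃ y, m + 3 ≤ (hitsL F (L y)).card)).card * 2 ^ (m + 3) := by
        rw [pow_add]; ring
    _ ≤ _ := h1

/-- the main choice -/
theorem pick [Nonempty W] {Y Z : Type} [Fintype Y] [Fintype Z] [Nonempty Z]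
    (T : Y → Z → RT U W) (t m K : ℕ) (hT : ∀ y z, (T y z).depth ≤ t)
    (hY : Fintype.card Y ≤ 2 ^ m)
    (hyes : ∀ F : U → W, ∃ y, ∀ z, (T y z).run (ones F) = 1)
    (hK : 8 * (m + 3) * t ≤ K) (hW : 16 * (m + 3) * t ≤ Fintype.card W) :
    ∃ (G : U → Bool × W) (y : Y), (univ.filter (fun u => (G u).1 = true)).card ≤ K ∧
      Fintype.card Z ≤ 2 * (univ.filter (fun z => (T y z).run G = 1)).card := by
  classical
  choose yf hyf using hyes
  set h := m + 3 with hh
  set r := 8 * h with hr
  set q := Fintype.card W ^ Fintype.card U with hq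
  have hqF : (univ : Finset (U → W)).card = q := by rw [card_univ, card_rows]
  have hWpos : 0 < Fintype.card W := Fintype.card_pos
  let H : (U → W) → Z → Finset U := fun F z => (T (yf F) z).hits F
  let New : Fin r → (Fin r → Z) → (U → W) → Prop := fun j ζ F =>
    ¬ (H F (ζ j) ⊆ (univ.filter (fun i => i < j)).biUnion (fun i => H F (ζ i)))
  -- the number of new indices
  have hnew : ∀ ζ : Fin r → Z, ∑ F : U → W, (univ.filter (fun j => New j ζ F)).card ≤ 2 * h * q := by
    intro ζ
    let L : Y → List (RT U W) := fun y => List.ofFn (fun i => T y (ζ i))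
    have hbad := count_bad (U := U) (W := W) m t r hY L (by
        intro y
        exact List.length_ofFn)
      (by
        intro y S hS
        obtain ⟨i, hi⟩ := (List.mem_ofFn' _ _).1 hS
        rw [← hi]
        exact hT _ _)
      (by
        have h1 : 2 * (r * t) = 16 * h * t := by rw [hr]; ring
        rw [h1]
        exact hW)
    set B := univ.filter (fun F : U → W => ∃ y, m + 3 ≤ (hitsL F (L y)).card) with hB
    have hunion : ∀ F, (univ.biUnion (fun j => H F (ζ j))).card
        ≤ (hitsL F (L (yf F))).card := by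
      intro F
      refine card_le_card ?_
      intro u hu
      obtain ⟨j, -, hj⟩ := mem_biUnion.1 hu
      rw [mem_hitsL]
      exact ⟨T (yf F) (ζ j), (List.mem_ofFn' _ _).2 ⟨j, rfl⟩, hj⟩
    have hpt : ∀ F, (univ.filter (fun j => New j ζ F)).card ≤ h + (if F ∈ B then r else 0) := by
      intro F
      by_cases hF : F ∈ B
      · rw [if_pos hF]
        have : (univ.filter (fun j => New j ζ F)).card ≤ r := by
          simpa using card_filter_le (univ : Finset (Fin r)) (fun j => New j ζ F)
        omega
      · rw [if_neg hF]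
        have h1 := card_new (fun j => H F (ζ j))
        have h2 := hunion F
        have h3 : ¬ (m + 3 ≤ (hitsL F (L (yf F))).card) := by
          intro h4
          exact hF (mem_filter.2 ⟨mem_univ _, yf F, h4⟩)
        have h5 : (univ.filter (fun j => New j ζ F)).card ≤ (univ.biUnion (fun j => H F (ζ j))).card :=
          h1
        omega
    calc ∑ F : U → W, (univ.filter (fun j => New j ζ F)).card
        ≤ ∑ F : U → W, (h + (if F ∈ B then r else 0)) := sum_le_sum (fun F _ => hpt F)
      _ = q * h + B.card * r := by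
          rw [sum_add_distrib, sum_const, hqF, smul_eq_mul, sum_ite_mem, univ_inter, sum_const,
            smul_eq_mul]
      _ = q * h + (B.card * 8) * h := by rw [hr]; ring
      _ ≤ q * h + q * h := by
          refine Nat.add_le_add_left (Nat.mul_le_mul_right _ hbad) _
      _ = 2 * h * q := by ring
  -- a good index
  have hhpos : 0 < h := by omega
  have hS : (univ : Finset (Fin r → Z)).card = Fintype.card Z ^ r := by
    simp
  set s := Fintype.card Z ^ r with hs
  obtain ⟨j, hj⟩ : ∃ j : Fin r, 4 * ∑ ζ : Fin r → Z, ∑ F : U → W, (if New j ζ F then 1 else 0)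
      ≤ s * q := by
    by_contra hcon
    push Not at hcon
    have h1 : ∑ j : Fin r, ∑ ζ : Fin r → Z, ∑ F : U → W, (if New j ζ F then 1 else 0)
        ≤ s * (2 * h * q) := by
      rw [sum_comm]
      calc ∑ ζ : Fin r → Z, ∑ j : Fin r, ∑ F : U → W, (if New j ζ F then 1 else 0)
          = ∑ ζ : Fin r → Z, ∑ F : U → W, (univ.filter (fun j => New j ζ F)).card := by
            refine sum_congr rfl (fun ζ _ => ?_)
            rw [sum_comm]
            refine sum_congr rfl (fun F _ => ?_)
            rw [card_filter]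
        _ ≤ ∑ _ζ : Fin r → Z, 2 * h * q := sum_le_sum (fun ζ _ => hnew ζ)
        _ = s * (2 * h * q) := by rw [sum_const, hS, smul_eq_mul]
    have h2 : ∑ _j : Fin r, s * q
        < ∑ j : Fin r, 4 * ∑ ζ : Fin r → Z, ∑ F : U → W, (if New j ζ F then 1 else 0) := by
      refine sum_lt_sum_of_nonempty ?_ (fun j _ => hcon j)
      exact ⟨⟨0, by omega⟩, mem_univ _⟩
    have h2a : ∑ _j : Fin r, s * q = r * (s * q) := by
      rw [sum_const, card_univ, Fintype.card_fin, smul_eq_mul]
    have h2b : ∑ j : Fin r, 4 * ∑ ζ : Fin r → Z, ∑ F : U → W, (if New j ζ F then 1 else 0)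
        = 4 * ∑ j : Fin r, ∑ ζ : Fin r → Z, ∑ F : U → W, (if New j ζ F then 1 else 0) :=
      (mul_sum _ _ _).symm
    have h3 : r * (s * q) = 4 * (s * (2 * h * q)) := by rw [hr]; ring
    have h4 := Nat.mul_le_mul_left 4 h1
    rw [h2a, h2b, h3] at h2
    exact absurd h2 (not_lt.2 h4)
  -- a good row and a good sequence
  obtain ⟨F, ζ, hFζ⟩ : ∃ (F : U → W) (ζ : Fin r → Z),
      4 * (univ.filter (fun z => New j (Function.update ζ j z) F)).card ≤ Fintype.card Z := by
    by_contra hcon
    push Not at hcon
    have h1 : ∑ F : U → W, ∑ ζ : Fin r → Z, Fintype.card Z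
        < ∑ F : U → W, ∑ ζ : Fin r → Z,
          4 * (univ.filter (fun z => New j (Function.update ζ j z) F)).card := by
      refine sum_lt_sum_of_nonempty ?_ (fun F _ => sum_lt_sum_of_nonempty ?_ (fun ζ _ => hcon F ζ))
      · exact ⟨fun _ => Classical.arbitrary W, mem_univ _⟩
      · exact ⟨fun _ => Classical.arbitrary Z, mem_univ _⟩
    have h2 : ∀ F : U → W, ∑ ζ : Fin r → Z,
        4 * (univ.filter (fun z => New j (Function.update ζ j z) F)).card
        = 4 * (Fintype.card Z * ∑ ζ : Fin r → Z, (if New j ζ F then 1 else 0)) := by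
      intro F
      rw [← mul_sum, ← sum_update j (fun ζ => if New j ζ F then 1 else 0)]
      congr 1
      refine sum_congr rfl (fun ζ _ => ?_)
      rw [card_filter]
    simp only [h2] at h1
    have h2b : ∑ F : U → W, 4 * (Fintype.card Z * ∑ ζ : Fin r → Z, (if New j ζ F then 1 else 0))
        = 4 * (Fintype.card Z * ∑ ζ : Fin r → Z, ∑ F : U → W, (if New j ζ F then 1 else 0)) := by
      rw [← mul_sum, ← mul_sum, sum_comm]
    rw [h2b] at h1
    have h3 : ∑ F : U → W, ∑ ζ : Fin r → Z, Fintype.card Z = q * (s * Fintype.card Z) := by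
      rw [sum_const, hqF, sum_const, hS]
      simp [smul_eq_mul]
    rw [h3] at h1
    have h4 : 4 * (Fintype.card Z * ∑ ζ : Fin r → Z, ∑ F : U → W, (if New j ζ F then 1 else 0))
        ≤ Fintype.card Z * (s * q) := by
      calc _ = Fintype.card Z * (4 * ∑ ζ : Fin r → Z, ∑ F : U → W, (if New j ζ F then 1 else 0)) := by
            ring
        _ ≤ _ := Nat.mul_le_mul_left _ hj
    have h5 : q * (s * Fintype.card Z) = Fintype.card Z * (s * q) := by ring
    rw [h5] at h1
    exact absurd h1 (not_lt.2 h4)
  set P := (univ.filter (fun i => i < j)).biUnion (fun i => H F (ζ i)) with hP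
  have hnewP : ∀ z, New j (Function.update ζ j z) F ↔ ¬ (H F z ⊆ P) := by
    intro z
    have h1 : (univ.filter (fun i => i < j)).biUnion (fun i => H F (Function.update ζ j z i)) = P := by
      rw [hP]
      refine biUnion_congr rfl (fun i hi => ?_)
      have hi' : i ≠ j := ne_of_lt (mem_filter.1 hi).2
      rw [Function.update_of_ne hi']
    simp only [New, Function.update_self, h1]
  simp only [hnewP] at hFζ
  have hPcard : P.card ≤ K := by
    refine le_trans card_biUnion_le ?_
    calc ∑ i ∈ univ.filter (fun i => i < j), (H F (ζ i)).card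
        ≤ ∑ _i ∈ univ.filter (fun i => i < j), t :=
          sum_le_sum (fun i _ => le_trans ((T (yf F) (ζ i)).card_hits F) (hT _ _))
      _ = (univ.filter (fun i => i < j)).card * t := by rw [sum_const, smul_eq_mul]
      _ ≤ r * t := by
          refine Nat.mul_le_mul_right _ ?_
          simpa using card_filter_le (univ : Finset (Fin r)) (fun i => i < j)
      _ ≤ K := hK
  -- the zero witnesses
  obtain ⟨w₀, hw₀⟩ : ∃ w₀ : U → W,
      8 * (univ.filter (fun z => ∃ p ∈ (T (yf F) z).zq F, w₀ p.1 = p.2)).card ≤ Fintype.card Z := by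
    by_contra hcon
    push Not at hcon
    have h1 : ∑ _w₀ : U → W, Fintype.card Z
        < ∑ w₀ : U → W, 8 * (univ.filter (fun z => ∃ p ∈ (T (yf F) z).zq F, w₀ p.1 = p.2)).card := by
      refine sum_lt_sum_of_nonempty ?_ (fun w₀ _ => hcon w₀)
      exact ⟨fun _ => Classical.arbitrary W, mem_univ _⟩
    rw [sum_const, hqF, smul_eq_mul, ← mul_sum] at h1
    have h2 : ∀ p : U × W, Fintype.card W * (univ.filter (fun w₀ : U → W => w₀ p.1 = p.2)).card = q := by
      intro p
      have h3 : univ.filter (fun w₀ : U → W => w₀ p.1 = p.2) = ext {p.1} (fun _ => p.2) := by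
        ext w₀
        simp [ext]
      rw [h3, card_ext, card_singleton, mul_comm, ← pow_succ, hq]
      congr 1
      have : 0 < Fintype.card U := Fintype.card_pos_iff.2 ⟨p.1⟩
      omega
    have h4 : ∑ w₀ : U → W, (univ.filter (fun z => ∃ p ∈ (T (yf F) z).zq F, w₀ p.1 = p.2)).card
        ≤ ∑ z : Z, ∑ p ∈ (T (yf F) z).zq F, (univ.filter (fun w₀ : U → W => w₀ p.1 = p.2)).card := by
      calc ∑ w₀ : U → W, (univ.filter (fun z => ∃ p ∈ (T (yf F) z).zq F, w₀ p.1 = p.2)).card
          ≤ ∑ w₀ : U → W, ∑ z : Z, ∑ p ∈ (T (yf F) z).zq F, (if w₀ p.1 = p.2 then 1 else 0) := by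
            refine sum_le_sum (fun w₀ _ => ?_)
            rw [card_filter]
            refine sum_le_sum (fun z _ => ?_)
            split_ifs with hex
            · obtain ⟨p, hp, hp'⟩ := hex
              calc 1 = if w₀ p.1 = p.2 then 1 else 0 := by rw [if_pos hp']
                _ ≤ _ := single_le_sum (f := fun p : U × W => if w₀ p.1 = p.2 then 1 else 0)
                    (fun _ _ => Nat.zero_le _) hp
            · exact Nat.zero_le _
        _ = ∑ z : Z, ∑ p ∈ (T (yf F) z).zq F, (univ.filter (fun w₀ : U → W => w₀ p.1 = p.2)).card := by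
            rw [sum_comm]
            refine sum_congr rfl (fun z _ => ?_)
            rw [sum_comm]
            refine sum_congr rfl (fun p _ => ?_)
            rw [card_filter]
    have h5 : Fintype.card W * ∑ z : Z, ∑ p ∈ (T (yf F) z).zq F,
        (univ.filter (fun w₀ : U → W => w₀ p.1 = p.2)).card ≤ Fintype.card Z * (t * q) := by
      rw [mul_sum]
      calc ∑ z : Z, Fintype.card W * ∑ p ∈ (T (yf F) z).zq F,
            (univ.filter (fun w₀ : U → W => w₀ p.1 = p.2)).card
          ≤ ∑ _z : Z, t * q := by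
            refine sum_le_sum (fun z _ => ?_)
            rw [mul_sum]
            simp only [h2]
            rw [sum_const, smul_eq_mul]
            exact Nat.mul_le_mul_right _ (le_trans ((T (yf F) z).card_zq F) (hT _ _))
        _ = _ := by rw [sum_const, card_univ, smul_eq_mul]
    have hWt : 8 * t ≤ Fintype.card W := by
      have h8 : 8 * t ≤ 16 * h * t := Nat.mul_le_mul_right _ (by omega)
      exact le_trans h8 hW
    have h6 : Fintype.card W * (q * Fintype.card Z)
        < 8 * (Fintype.card Z * (t * q)) := by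
      calc Fintype.card W * (q * Fintype.card Z)
          < Fintype.card W * (8 * ∑ w₀ : U → W,
            (univ.filter (fun z => ∃ p ∈ (T (yf F) z).zq F, w₀ p.1 = p.2)).card) :=
            Nat.mul_lt_mul_of_pos_left h1 hWpos
        _ ≤ Fintype.card W * (8 * ∑ z : Z, ∑ p ∈ (T (yf F) z).zq F,
            (univ.filter (fun w₀ : U → W => w₀ p.1 = p.2)).card) :=
            Nat.mul_le_mul_left _ (Nat.mul_le_mul_left _ h4)
        _ = 8 * (Fintype.card W * ∑ z : Z, ∑ p ∈ (T (yf F) z).zq F,
            (univ.filter (fun w₀ : U → W => w₀ p.1 = p.2)).card) := by ring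
        _ ≤ _ := Nat.mul_le_mul_left _ h5
    have h7 : 8 * (Fintype.card Z * (t * q)) ≤ Fintype.card W * (q * Fintype.card Z) := by
      calc 8 * (Fintype.card Z * (t * q)) = (8 * t) * (q * Fintype.card Z) := by ring
        _ ≤ _ := Nat.mul_le_mul_right _ hWt
    exact absurd h6 (not_lt.2 h7)
  refine ⟨mix F w₀ P, yf F, ?_, ?_⟩
  · have h1 : univ.filter (fun u => (mix F w₀ P u).1 = true) = P := by
      ext u
      simp only [mix, mem_filter, mem_univ, true_and]
      by_cases hu : u ∈ P <;> simp [hu]
    rw [h1]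
    exact hPcard
  · have hcover : (univ : Finset Z) ⊆ univ.filter (fun z => (T (yf F) z).run (mix F w₀ P) = 1)
        ∪ (univ.filter (fun z => ¬ (H F z ⊆ P))
          ∪ univ.filter (fun z => ∃ p ∈ (T (yf F) z).zq F, w₀ p.1 = p.2)) := by
      intro z _
      by_cases h1 : H F z ⊆ P
      · by_cases h2 : ∃ p ∈ (T (yf F) z).zq F, w₀ p.1 = p.2
        · exact mem_union_right _ (mem_union_right _ (mem_filter.2 ⟨mem_univ _, h2⟩))
        · refine mem_union_left _ (mem_filter.2 ⟨mem_univ _, ?_⟩)
          push Not at h2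
          rw [RT.run_mix F w₀ P (T (yf F) z) h1 h2]
          exact hyf F z
      · exact mem_union_right _ (mem_union_left _ (mem_filter.2 ⟨mem_univ _, h1⟩))
    have h1 := le_trans (card_le_card hcover) (card_union_le _ _)
    have h2 := card_union_le (univ.filter (fun z => ¬ (H F z ⊆ P)))
      (univ.filter (fun z => ∃ p ∈ (T (yf F) z).zq F, w₀ p.1 = p.2))
    rw [card_univ] at h1
    omega

end Pool.Agent.H.MP_7934a7_lc.Row
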